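import Pool.Agent.Lib.MP_af3a4a_an.P1.CHK.DATA.N11.C1
import Pool.Agent.Lib.MP_af3a4a_an.P1.CHK.DATA.F.W144a
import Pool.Agent.Lib.MP_af3a4a_an.P1.CHK.DATA.F.W240a
import Pool.Agent.Lib.MP_af3a4a_an.P1.CHK.DATA.F.W288a
import Pool.Agent.Lib.MP_af3a4a_an.P1.CHK.DATA.F.W336a
import Pool.Agent.Lib.MP_af3a4a_an.P1.CHK.DATA.F.W384a
import Pool.Agent.Lib.MP_af3a4a_an.P1.CHK.DATA.F.W432a
import Pool.Agent.Lib.MP_af3a4a_an.P1.CHK.DATA.F.W480a
import Pool.Agent.Lib.MP_af3a4a_an.P1.CHK.DATA.F.W528a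
import Pool.Agent.Lib.MP_af3a4a_an.P1.CHK.DATA.F.W528b
import Pool.Agent.Lib.MP_af3a4a_an.P1.CHK.DATA.F.W576a

/-! chunks for 11 <= N <= 11 (generated) -/

set_option autoImplicit false
set_option maxRecDepth 100000

namespace Pool.Agent.Lib.MP_af3a4a_an.P1.CHK.DATA.N11

open BOX

def t29 : Tree := (.sg 64 (.sg 32 (.sg 16 (.sR 2016 (.sR 1152 (.sR 528 (.leaf 0x40000000000a013028a4b9c6600400f80) (.sR 672 (.leaf 0x6000000000180020613c1173523601000) (.sg 8 (.sR 912 (.sR 816 (.sR 720 (.leaf 0x40000000001a007069740739b00401000) (.sr 3840 (.leaf 0x40000000001c010071281806800401000) (.leaf 0x60000000001e01b079840aa2923601000))) (.sR 864 (.leaf 2) (.leaf 2))) (.sR 1008 (.sR 960 (.leaf 2) (.leaf 2)) (.sR 1056 (.leaf 2) (.sR 1104 (.leaf 2) (.leaf 0x40000000002e0070b95015e5d46401000))))) (.sR 864 (.sR 816 (.leaf 0x60000000001e0080792c1a26846601000) (.leaf 0x5e0000000020014081182e2b88c5e0f80)) (.sR 1056 (.sr 3840 (.sR 960 (.leaf 0x58000000002400c0910c4e1bd8c580f80)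 (.leaf 0x54000000002800c0a0fc67cce8c540f80)) (.sR 960 (.leaf 0x5e000000002400b091700c1cb465e1000) (.sR 1008 (.leaf 0x56000000002600b099ac0575d46561000) (.leaf 0x54000000002800b0a1b8034c323541000)))) (.sR 1104 (.leaf 0x4c000000002a0080a9c80190f464c1000) (.leaf 0x4a000000002c0080b1d801b09234a1000))))))) (.sR 1920 (.sR 1536 (.leaf 0x4000000000320020c8b05592c69401000) (.leaf 0x440000000040002100a45e75f69441000)) (.sR 1968 (.leaf 0x4a000000004200710884080708c4a1080) (.leaf 0x3c00000000400021007c654358c3c1000)))) (.sR 2208 (.sR 2112 (.sR 2064 (.leaf 0x3c00c640603c00210880610288c3c1000) (.leaf 0x3c0345802432002130e806c6a8c3c1000)) (.sR 2160 (.leaf 0x3c0305c02834002130c80cc23693c1000) (.leaf 0x3e0405402c30002140ec01b7d463e1000))) (.sR 2304 (.sR 2256 (.leaf 0x3a0306403038002140cc180c0693a1000) (.leaf 0x3c0386003436002148cc10d32463c1000)) (.sR 2352 (.leaf 0x380485806832002158f411e8346381000) (.leaf 3))))) (.sR 1872 (.sR 1008 (.sR 768 (.sR 528 (.leaf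 0x5a000000000a006028a0ff13a235a0f00) (.leaf 0x60000000001a000069003407e46601000)) (.sR 864 (.leaf 0x5c00000000200000817c0cb7c695c1000) (.sR 960 (.sg 24 (.leaf 0x560000000022015088f8821b28c560f80) (.leaf 0x540000000020005080dcb664b8c540f80)) (.leaf 0x540000000026000099ac05a0a69541000)))) (.sR 1536 (.sR 1152 (.leaf 0x52000000002a0000a9481b3808c521000) (.leaf 0x4800000000320000c8b0585d78c481000)) (.sR 1776 (.leaf 0x48000000003c0090f0946a00e8c481080) (.sR 1824 (.leaf 0x42000000003c0090f08492f4b8c421080) (.leaf 0x46000000003c0090f0788a57d8c461080))))) (.sR 2112 (.sR 1968 (.sR 1920 (.leaf 0x400304401c28000100a4000028c401000) (.leaf 0x400244c0542c0000f87c16bd58c401000)) (.sR 2016 (.leaf 0x400740c0200e000120e00000269401000) (.sR 2064 (.leaf 0x400384805c2a0001180000000b0401004) (.leaf 0x3e05c300241e000130e801ba58c3e1000)))) (.sR 2208 (.sR 2160 (.leaf 0x42044480282a000130c8032788c421000) (.leaf 0x3c06c2802c1a000140ec0660c463c1000)) (.sR 2256 (.leaf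 0x3c03c500302e00013098281cd8c3c1000) (.sR 2304 (.leaf 0x4204c4c0342c000148cc02cd48c421000) (.leaf 3))))))) (.sg 48 (.sR 1632 (.sR 1392 (.sR 864 (.sR 576 (.leaf 0x5a000000000c0000309978287695a1100) (.leaf 0x58000000001c001070e0562be8c581080)) (.sR 1056 (.leaf 0x520000000024001090dc25a5c8c521080) (.sR 1296 (.leaf 0x4e000000002a0010a8ac27ef58c4e1080) (.leaf 0x4e000000002e0000b87c279fb8c4e1100)))) (.sR 1488 (.sR 1440 (.leaf 0x4e00000000320000c880460e38c4e1100) (.sg 40 (.leaf 0x48000000002e0050b898708d38c481000) (.leaf 0x46000000002c0050b078633638c461080))) (.sR 1536 (.leaf 0x48024300001e0010c088070518c481080) (.sR 1584 (.leaf 0x480283000c1e0010c88802e458c481080) (.leaf 0x4603824010180010d0881a45b8c461080))))) (.sR 1872 (.sR 1728 (.sR 1680 (.leaf 0x4802438014220010d00000000c046d084) (.leaf 0x4805414018100010e894253dd69481080)) (.sR 1776 (.leaf 0x46060100480e0010f8a446c888c461080) (.sR 1824 (.leaf 0x460641004c0e001100a04df9f69461080) (.leaf 0x4406c100500e001110ac899c48c441080))))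 (.sR 1968 (.sR 1920 (.leaf 0x400640c01c0c0060f80000000c0401004) (.leaf 0x440542c0581c001118a086d3b8c441080)) (.sR 2016 (.leaf 0x44078080200c006120e006fb969441000) (.sR 2064 (.leaf 0x4206c2006416001130a4d27d98c421080) (.leaf 3)))))) (.sR 1008 (.sR 576 (.leaf 0x5a000000000c00a03099cfe9c695a1080) (.sR 864 (.leaf 0x52000000001a006068a84afb38c521100) (.leaf 0x5000000000200010807c40df38c501180))) (.sR 1680 (.sg 56 (.sR 1488 (.sR 1392 (.sR 1296 (.leaf 0x54000000002a0050a880a389f8c541100) (.leaf 0x5000000000300050c0842b2878c501100)) (.sR 1440 (.leaf 0x4c00000000300050c0788f2438c4c1100) (.leaf 0x4a02c280081a0030c09808f7a8c4a1080))) (.sR 1584 (.sR 1536 (.leaf 0x48050100000e0030d8b8255f28c481080) (.leaf 0x460541000c0e0030e0b83e9068c461080)) (.sR 1632 (.leaf 0x48058100100e0030e8b42f30a69481080) (.leaf 0x44058100140e0030e8a451e1e8c441080)))) (.sR 1296 (.sR 1200 (.leaf 0x4c00000000240030907c6ca1f8c4c1100) (.sR 1248 (.leaf 0x4c40000000260030980000000c04a9104)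 (.leaf 0x4c80000000280030a00000000d84b1104))) (.sR 1488 (.sr 3840 (.sR 1392 (.sR 1344 (.leaf 0x4d000000002a0110a80000000c04b9104) (.leaf 0x4903c100440e0040b00000000d0479084)) (.sR 1440 (.leaf 0x48040100040e0040b89802ad58c481080) (.leaf 0x46048100080e0040c8a820b928c461080))) (.sR 1392 (.leaf 0x4c000000002c01c0b0750af578c4c1100) (.sR 1440 (.leaf 0x4a02c280041a00f0c0a8028358c4a1080) (.leaf 3)))) (.sR 1536 (.leaf 0x480500c0000c00e0d0a8139b48c481080) (.leaf 3))))) (.sR 1728 (.leaf 0x49c580c0180c00a0e00000000c0485084) (.leaf 3)))))) (.sg 96 (.sg 80 (.sR 768 (.sR 576 (.leaf 0x5a000000000c0180309ac1e66695a0f80) (.leaf 0x4c000000001400a050882a5498c4c1180)) (.sR 1296 (.sg 72 (.sR 1008 (.leaf 0x5200000000200030807caa10f8c521180) (.sr 3840 (.sR 1152 (.sR 1104 (.leaf 0x4a00000000200040808011cb28c4a1100) (.leaf 0x498043003c1e0040800000000c8481104)) (.sR 1200 (.leaf 0x4840000000200040800000000d8475104) (.sg 68 (.sR 1248 (.leaf 0x48000000002600d098788d2358c481100)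 (.leaf 0x4a014340402000d0a880453c28c4a1100)) (.leaf 3)))) (.sR 1200 (.leaf 0x4e000000002400f0907c669af8c4e1100) (.leaf 3)))) (.sR 912 (.leaf 0x4c000000001a00e0687c225c38c4c1180) (.sR 1056 (.sr 3840 (.sR 1008 (.leaf 0x4e00000000200040807c331dd8c4e1180) (.sg 76 (.leaf 0x46000000001e0120788038ec38c461100) (.leaf 3))) (.sR 960 (.leaf 0x48000000001a01d06884028038c481100) (.leaf 3))) (.leaf 3)))) (.leaf 3))) (.sR 720 (.sR 624 (.leaf 0x58000000000c0190309741e6669581000) (.leaf 0x4a00000000120160487c203088c4a1200)) (.sR 768 (.leaf 0x480080c0380c0170407c68bdd8c481100) (.leaf 3)))) (.sR 192 (.leaf 0x40000000000201a008fc31e4800400f00) (.leaf 3))))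
theorem k29 : ChunkP 11 11 3584 4096 0 101 0 2484 :=
  chkD_sound (Q := 40) (C := [c627.c, c629.c, c622.c, c632.c, c619.c, c630.c, c631.c, c621.c, c623.c, c625.c, c633.c, c641.c, c616.c, c618.c, c634.c, c643.c, c615.c, c617.c, c620.c, c624.c, c626.c, c628.c, c635.c, c636.c, c637.c, c638.c, c639.c, c640.c, c642.c, c644.c])
    (T := [f_w372_384_8_50_40, f_w348_360_8_40_40, f_w360_372_8_40_50, f_w384_396_8_50_30, f_w396_408_8_50_30, f_w408_420_8_40_40, f_w420_432_8_50_30, f_w468_480_0_50_10, f_w492_504_0_60_30, f_w516_528_0_50_30, f_w528_540_0_40_30, f_w540_552_0_50_30, f_w552_564_0_30_20, f_w564_576_0_30_20, f_w180_192_16_10_40, f_w276_288_16_15_40, f_w312_324_16_20_45, f_w336_348_8_40_40, f_w432_444_8_50_30, f_w444_456_8_50_30, f_w456_468_8_50_30, f_w480_492_0_40_20, f_w480_492_8_40_30, f_w504_516_0_40_10, f_w504_516_0_5_0, f_w504_516_8_40_30, f_w576_588_0_40_10]) (t := t29)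
    (all_cons p627 (all_cons p629 (all_cons p622 (all_cons p632 (all_cons p619 (all_cons p630 (all_cons p631 (all_cons p621 (all_cons p623 (all_cons p625 (all_cons p633 (all_cons p641 (all_cons p616 (all_cons p618 (all_cons p634 (all_cons p643 (all_cons p615 (all_cons p617 (all_cons p620 (all_cons p624 (all_cons p626 (all_cons p628 (all_cons p635 (all_cons p636 (all_cons p637 (all_cons p638 (all_cons p639 (all_cons p640 (all_cons p642 (all_cons p644 all_nil)))))))))))))))))))))))))))))) (all_cons f_w372_384_8_50_40_p (all_cons f_w348_360_8_40_40_p (all_cons f_w360_372_8_40_50_p (all_cons f_w384_396_8_50_30_p (all_cons f_w396_408_8_50_30_p (all_cons f_w408_420_8_40_40_p (all_cons f_w420_432_8_50_30_p (all_cons f_w468_480_0_50_10_p (all_cons f_w492_504_0_60_30_p (all_cons f_w516_528_0_50_30_p (all_cons f_w528_540_0_40_30_p (all_cons f_w540_552_0_50_30_p (all_cons f_w552_564_0_30_20_p (all_cons f_w564_576_0_30_20_p (all_cons f_w180_192_16_10_40_p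 (all_cons f_w276_288_16_15_40_p (all_cons f_w312_324_16_20_45_p (all_cons f_w336_348_8_40_40_p (all_cons f_w432_444_8_50_30_p (all_cons f_w444_456_8_50_30_p (all_cons f_w456_468_8_50_30_p (all_cons f_w480_492_0_40_20_p (all_cons f_w480_492_8_40_30_p (all_cons f_w504_516_0_40_10_p (all_cons f_w504_516_0_5_0_p (all_cons f_w504_516_8_40_30_p (all_cons f_w576_588_0_40_10_p all_nil)))))))))))))))))))))))))))
    (by decide +kernel)

end Pool.Agent.Lib.MP_af3a4a_an.P1.CHK.DATA.N11
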