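import Pool.Agent.Lib.MP_af3a4a_an.P1.CHK.DATA.N11.K0
import Pool.Agent.Lib.MP_af3a4a_an.P1.CHK.DATA.N11.K1
import Pool.Agent.Lib.MP_af3a4a_an.P1.CHK.DATA.N11.K2

/-! glue for 11 <= N <= 11 (generated) -/

set_option autoImplicit false
set_option maxRecDepth 100000

namespace Pool.Agent.Lib.MP_af3a4a_an.P1.CHK.DATA.N11

open BOX

theorem g0 : ChunkP 11 11 0 1024 0 101 0 2484 := ChunkP.r k0 k1
theorem g1 : ChunkP 11 11 1024 1536 0 64 0 2484 := ChunkP.g k2 k3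
theorem g2 : ChunkP 11 11 1024 1536 64 80 1728 2484 := ChunkP.r k9 k10
theorem g3 : ChunkP 11 11 1024 1536 64 80 1680 2484 := ChunkP.R k8 g2
theorem g4 : ChunkP 11 11 1024 1536 64 80 1632 2484 := ChunkP.R k7 g3
theorem g5 : ChunkP 11 11 1024 1536 64 80 1488 2484 := ChunkP.R k6 g4
theorem g6 : ChunkP 11 11 1024 1536 64 80 1248 2484 := ChunkP.R k5 g5
theorem g7 : ChunkP 11 11 1024 1536 64 80 0 2484 := ChunkP.R k4 g6
theorem g8 : ChunkP 11 11 1024 1536 64 96 0 2484 := ChunkP.g g7 k11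
theorem g9 : ChunkP 11 11 1024 1536 64 101 0 2484 := ChunkP.g g8 k12
theorem g10 : ChunkP 11 11 1024 1536 0 101 0 2484 := ChunkP.g g1 g9
theorem g11 : ChunkP 11 11 1536 2048 0 64 0 2484 := ChunkP.g k13 k14
theorem g12 : ChunkP 11 11 1536 2048 64 80 1200 2484 := ChunkP.r k19 k20
theorem g13 : ChunkP 11 11 1536 2048 64 80 1152 2484 := ChunkP.R k18 g12
theorem g14 : ChunkP 11 11 1536 2048 64 80 1104 2484 := ChunkP.R k17 g13
theorem g15 : ChunkP 11 11 1536 2048 64 80 960 2484 := ChunkP.R k16 g14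
theorem g16 : ChunkP 11 11 1536 2048 64 80 0 2484 := ChunkP.R k15 g15
theorem g17 : ChunkP 11 11 1536 2048 64 96 0 2484 := ChunkP.g g16 k21
theorem g18 : ChunkP 11 11 1536 2048 64 101 0 2484 := ChunkP.g g17 k22
theorem g19 : ChunkP 11 11 1536 2048 0 101 0 2484 := ChunkP.g g11 g18
theorem g20 : ChunkP 11 11 1024 2048 0 101 0 2484 := ChunkP.r g10 g19
theorem g21 : ChunkP 11 11 0 2048 0 101 0 2484 := ChunkP.r g0 g20
theorem g22 : ChunkP 11 11 2048 2560 0 64 0 2484 := ChunkP.g k23 k24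
theorem g23 : ChunkP 11 11 2048 2560 0 101 0 2484 := ChunkP.g g22 k25
theorem g24 : ChunkP 11 11 2560 3072 0 101 0 2484 := ChunkP.g k26 k27
theorem g25 : ChunkP 11 11 2048 3072 0 101 0 2484 := ChunkP.r g23 g24
theorem g26 : ChunkP 11 11 3072 4096 0 101 0 2484 := ChunkP.r k28 k29
theorem g27 : ChunkP 11 11 2048 4096 0 101 0 2484 := ChunkP.r g25 g26
theorem g28 : ChunkP 11 11 0 4096 0 101 0 2484 := ChunkP.r g21 g27

/-- the whole box -/
theorem allBox : ChunkP 11 11 0 4096 0 101 0 2484 := g28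

theorem full {N : ℕ} (hNa : 11 ≤ N) (hNb : N ≤ 11) {z w : Fin N → ℂ} {R : ℝ} {σ : Fin N → ℂ}
    (hC : Pool.Agent.Lib.MP_af3a4a_an.P1.H80.Cfg2 N z w R σ) : ((2484 : ℕ) : ℝ) / 1024 < R := ChunkP.full allBox hNa hNb hC

end Pool.Agent.Lib.MP_af3a4a_an.P1.CHK.DATA.N11
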